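import Pool.Agent.Helper23.X2.Crossing
import Pool.Agent.Helper48.SP.TnDef
import Pool.Agent.Helper37.SP.Bridge

/-!
Project SP, module SP-15b: three two-sided wave estimates for `f_n`, `n ≥ 6`.
-/

set_option autoImplicit false

open MeasureTheory Set Real Slab
open Pool.Agent.Helper88.Slab (prob)

namespace Pool.Agent.Helper89.SP

theorem Tn_eq (n : ℕ) {t : ℝ} (ht : 0 ≤ t) :
    Tn n t = 1 - prob (fun _ : Fin n => 1 / √(n : ℝ)) t := by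
  rw [← T_ofFn _ ht, List.ofFn_const]
  rfl

/-- The three inequalities at the nodes. -/
theorem nodes_X2 {n : ℕ} (hn : 6 ≤ n) :
    Tn n 1.06 ≤ 1.242 * Tn n 1.11 ∧ Tn n 1.08 ≤ 1.25 * Tn n 1.13 ∧
      Tn n 1.1 ≤ 1.2586 * Tn n 1.15 := by
  have hn0 : 0 < (n : ℝ) := by
    have : (6 : ℝ) ≤ (n : ℝ) := by exact_mod_cast hn
    linarith
  have hc0 : 0 < 1 / √(n : ℝ) := by positivity
  have hc : (n : ℝ) * (1 / √(n : ℝ)) ^ 2 = 1 := by
    rw [div_pow, Real.sq_sqrt hn0.le, one_pow]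
    field_simp
  have h1 := Pool.Agent.Helper23.X2.crossing_a hn hc0 hc
  have h2 := Pool.Agent.Helper23.X2.crossing_b hn hc0 hc
  have h3 := Pool.Agent.Helper23.X2.crossing_c hn hc0 hc
  rw [show (1.10 : ℝ) = 1.1 by norm_num] at h3
  rw [Tn_eq n (by norm_num : (0 : ℝ) ≤ 1.06), Tn_eq n (by norm_num : (0 : ℝ) ≤ 1.11),
    Tn_eq n (by norm_num : (0 : ℝ) ≤ 1.08), Tn_eq n (by norm_num : (0 : ℝ) ≤ 1.13),
    Tn_eq n (by norm_num : (0 : ℝ) ≤ 1.1), Tn_eq n (by norm_num : (0 : ℝ) ≤ 1.15)]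
  exact ⟨h1, h2, h3⟩

end Pool.Agent.Helper89.SP
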